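import Pool.Agent.helper66.LE.Defs3
import Pool.Agent.helper66.LE.Ineq

/-!
# lg:C5 — cut sets and the BK inequality
-/

set_option autoImplicit false

open Finset Classical

namespace Pool.Agent.helper66.LE

section C5
variable {V : Type*} {q : ℝ}

theorem Pr_compl (q : ℝ) (E : Finset (Sym2 V)) (X : Finset (Sym2 V) → Prop) :
    Pr q E (fun F => X (E \ F)) = Pr (1 - q) E X := by
  unfold Pr Ex
  refine Finset.sum_nbij' (fun F => E \ F) (fun F => E \ F) ?_ ?_ ?_ ?_ ?_
  · intro F _
    exact Finset.mem_powerset.2 Finset.sdiff_subset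
  · intro F _
    exact Finset.mem_powerset.2 Finset.sdiff_subset
  · intro F hF
    exact Finset.sdiff_sdiff_eq_self (Finset.mem_powerset.1 hF)
  · intro F hF
    exact Finset.sdiff_sdiff_eq_self (Finset.mem_powerset.1 hF)
  · intro F _
    congr 1
    unfold wt
    refine Finset.prod_congr rfl fun e he => ?_
    by_cases h : e ∈ F
    · have h2 : e ∉ E \ F := fun h3 => (Finset.mem_sdiff.1 h3).2 h
      rw [if_pos h, if_neg h2]; ring
    · have h2 : e ∈ E \ F := Finset.mem_sdiff.2 ⟨he, h⟩
      rw [if_neg h, if_pos h2]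

/-- every path in `E` from `A` to `B` has at least `k + 1` edges in `G`. -/
def C5_N (E : Finset (Sym2 V)) (A B : Set V) (k : ℕ) (G : Finset (Sym2 V)) : Prop :=
  ∀ a ∈ A, ∀ b ∈ B, ∀ γ : (SimpleGraph.fromEdgeSet (E : Set (Sym2 V))).Walk a b,
    k + 1 ≤ γ.edges.countP (fun e => decide (e ∈ G))

theorem C5_inc (E : Finset (Sym2 V)) (A B : Set V) (k : ℕ) : Inc (C5_N E A B k) := by
  intro G G' h hG a ha b hb γ
  refine (hG a ha b hb γ).trans (List.countP_mono_left fun e _ he => ?_)
  simp only [decide_eq_true_eq] at he ⊢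
  exact h he

theorem C5_iff (E : Finset (Sym2 V)) (A B : Set V) (k : ℕ) (F : Finset (Sym2 V)) :
    ¬ PTS E F k A B ↔ C5_N E A B k (E \ F) := by
  have h : ∀ {a b : V} (γ : (SimpleGraph.fromEdgeSet (E : Set (Sym2 V))).Walk a b),
      γ.edges.countP (fun e => decide (e ∈ E \ F)) = γ.edges.countP (fun e => decide (e ∉ F)) := by
    intro a b γ
    refine List.countP_congr fun e he => ?_
    have h1 : e ∈ E := by
      have h2 := γ.edges_subset_edgeSet he
      rw [SimpleGraph.edgeSet_fromEdgeSet] at h2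
      exact_mod_cast h2.1
    simp only [decide_eq_true_eq, Finset.mem_sdiff, h1, true_and]
  constructor
  · intro hn a ha b hb γ
    rw [h]
    by_contra hc
    exact hn ⟨a, ha, b, hb, γ, by omega⟩
  · rintro hN ⟨a, ha, b, hb, γ, hγ⟩
    have := hN a ha b hb γ
    rw [h] at this
    omega

theorem C5_dis (E : Finset (Sym2 V)) (A B : Set V) (k : ℕ) (G : Finset (Sym2 V))
    (hG : C5_N E A B (k + 1) G) : Dis (C5_N E A B 0) (C5_N E A B k) G := by
  set U : Set V := {x | ∃ a ∈ A, ∃ γ : (SimpleGraph.fromEdgeSet (E : Set (Sym2 V))).Walk a x,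
    γ.edges.countP (fun e => decide (e ∈ G)) = 0} with hU
  have hAU : ∀ a ∈ A, a ∈ U := fun a ha => ⟨a, ha, SimpleGraph.Walk.nil, rfl⟩
  have hBU : ∀ b ∈ B, b ∉ U := by
    rintro b hb ⟨a, ha, γ, hγ⟩
    have := hG a ha b hb γ
    omega
  have hexit : ∀ {x y : V}, (SimpleGraph.fromEdgeSet (E : Set (Sym2 V))).Adj x y → x ∈ U → y ∉ U →
      s(x, y) ∈ G := by
    rintro x y hxy ⟨a, ha, γ, hγ⟩ hy
    by_contra hn
    refine hy ⟨a, ha, γ.concat hxy, ?_⟩
    rw [SimpleGraph.Walk.edges_concat, List.concat_eq_append, List.countP_append, hγ, zero_add]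
    simp [hn]
  set G₁ : Finset (Sym2 V) := G.filter (fun e => ∃ u w, e = s(u, w) ∧ u ∈ U ∧ w ∉ U) with hG₁
  set G₂ : Finset (Sym2 V) := G \ G₁ with hG₂
  refine ⟨G₁, G₂, Finset.filter_subset _ _, Finset.sdiff_subset, Finset.disjoint_sdiff, ?_, ?_⟩
  · -- every path from `A` to `B` leaves `U`
    intro a ha b hb γ
    have key : ∀ {x : V} (p : (SimpleGraph.fromEdgeSet (E : Set (Sym2 V))).Walk x b), x ∈ U →
        0 + 1 ≤ p.edges.countP (fun e => decide (e ∈ G₁)) := by
      intro x p
      induction p with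
      | nil => intro hx; exact absurd hx (hBU _ hb)
      | @cons x y z hxy p ih =>
        intro hx
        rw [SimpleGraph.Walk.edges_cons, List.countP_cons]
        by_cases hy : y ∈ U
        · have := ih hb γ hy
          omega
        · have h1 : s(x, y) ∈ G₁ :=
            Finset.mem_filter.2 ⟨hexit hxy hx hy, x, y, rfl, hx, hy⟩
          simp [h1]
    exact key γ (hAU a ha)
  · intro a ha b hb γ
    have key : ∀ {x : V} (p : (SimpleGraph.fromEdgeSet (E : Set (Sym2 V))).Walk x b),
        (∃ a ∈ A, ∃ γ' : (SimpleGraph.fromEdgeSet (E : Set (Sym2 V))).Walk a b,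
          γ'.edges.countP (fun e => decide (e ∈ G)) ≤
            1 + p.edges.countP (fun e => decide (e ∈ G₂))) ∨
        (x ∉ U ∧ p.edges.countP (fun e => decide (e ∈ G)) ≤
          p.edges.countP (fun e => decide (e ∈ G₂))) := by
      intro x p
      induction p with
      | nil => exact Or.inr ⟨hBU _ hb, le_rfl⟩
      | @cons x y z hxy p ih =>
        rw [SimpleGraph.Walk.edges_cons, List.countP_cons, List.countP_cons]
        rcases ih hb γ with ⟨a', ha', γ', hγ'⟩ | ⟨hy, hle⟩
        · left
          exact ⟨a', ha', γ', by omega⟩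
        · by_cases hx : x ∈ U
          · left
            obtain ⟨a', ha', γ', hγ'⟩ := hx
            refine ⟨a', ha', γ'.append (SimpleGraph.Walk.cons hxy p), ?_⟩
            rw [SimpleGraph.Walk.edges_append, List.countP_append, hγ',
              SimpleGraph.Walk.edges_cons, List.countP_cons]
            split_ifs <;> omega
          · right
            refine ⟨hx, ?_⟩
            have h1 : s(x, y) ∈ G → s(x, y) ∈ G₂ := by
              intro h2
              refine Finset.mem_sdiff.2 ⟨h2, fun h3 => ?_⟩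
              obtain ⟨-, u, w, huw, hu, hw⟩ := Finset.mem_filter.1 h3
              rw [Sym2.eq_iff] at huw
              rcases huw with ⟨rfl, rfl⟩ | ⟨rfl, rfl⟩
              · exact hx hu
              · exact hy hu
            by_cases h2 : s(x, y) ∈ G
            · have h3 := h1 h2
              simp only [h2, h3, decide_true, if_true]
              omega
            · simp only [h2, decide_false, Bool.false_eq_true, if_false]
              split_ifs <;> omega
    rcases key γ with ⟨a', ha', γ', hγ'⟩ | ⟨h1, -⟩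
    · have := hG a' ha' b hb γ'
      omega
    · exact absurd (hAU a ha) h1

theorem cut_bk (h0 : 0 ≤ q) (h1 : q ≤ 1) (E : Finset (Sym2 V)) (A B : Set V) (k : ℕ) :
    Pr q E (fun F => ¬ PTS E F k A B) ≤ (Pr q E (fun F => ¬ PTS E F 0 A B)) ^ (k + 1) := by
  have e : ∀ k, Pr q E (fun F => ¬ PTS E F k A B) = Pr (1 - q) E (C5_N E A B k) := by
    intro k
    rw [← Pr_compl]
    exact Pr_congr fun F _ => C5_iff E A B k F
  rw [e, e]
  have h0' : (0 : ℝ) ≤ 1 - q := by linarith
  have h1' : 1 - q ≤ 1 := by linarith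
  induction k with
  | zero => rw [zero_add, pow_one]
  | succ k ih =>
    have h2 : Pr (1 - q) E (C5_N E A B (k + 1)) ≤
        Pr (1 - q) E (Dis (C5_N E A B 0) (C5_N E A B k)) :=
      Pr_mono h0' h1' fun G _ hG => C5_dis E A B k G hG
    have h3 := bk h0' h1' E (C5_inc E A B 0) (C5_inc E A B k)
    refine h2.trans (h3.trans ?_)
    rw [pow_succ' _ (k + 1)]
    exact mul_le_mul_of_nonneg_left ih (Pr_nonneg h0' h1' _ _)

end C5

end Pool.Agent.helper66.LE
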